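import Pool.Agent.H31.ST.All

/-!
# MP_0b97f5_mp : frequency independence of Sturmian spectral dimensions at all couplings

Lean modules: helpers 11, 18, 21, 24, 25, 31, 33, 34, 47, 56, 58, 73, 81, 94, 97
(`Pool/Agent/H*/ST`).
-/

open Set Filter Topology MeasureTheory Pool.Agent.H31.Sturm

namespace Pool.Agent.Results.MP_0b97f5_mp.AEConstant

/-- For every coupling `λ > 0` the Hausdorff dimension and the upper box-counting dimension of the
spectrum of the Sturmian Hamiltonian are Lebesgue almost everywhere constant in the frequency. -/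
theorem result : ∀ lam : ℝ, 0 < lam →
    (∃ c : ENNReal, ∀ᵐ α ∂(volume.restrict (Ioo (0 : ℝ) 1)), ∀ ω ∈ Ico (0 : ℝ) 1,
      dimH (spec lam α ω) = c) ∧
    (∃ c : EReal, ∀ᵐ α ∂(volume.restrict (Ioo (0 : ℝ) 1)), ∀ ω ∈ Ico (0 : ℝ) 1,
      upperBoxDim (spec lam α ω) = c) :=
  H31.ST.link H31.ST.all_FINAL

end Pool.Agent.Results.MP_0b97f5_mp.AEConstant
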